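import Pool.Agent.R326.ML.Deg

/-!
# A primitive recursive algorithm for minimum-length multiples
-/

set_option autoImplicit false

namespace Pool.Agent.R326.ML

open Polynomial

/-! ### primitive recursive functions of integers -/

section IntPrim

open Encodable

theorem encode_int_ofNat (n : ℕ) : encode (n : ℤ) = 2 * n := rfl
theorem encode_int_negSucc (n : ℕ) : encode (Int.negSucc n) = 2 * n + 1 := rfl

theorem prim_toNat : Primrec Int.toNat := by
  have h : Primrec (fun n : ℕ => if n % 2 = 0 then n / 2 else 0) := by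
    refine Primrec.ite ?_ ?_ (Primrec.const 0)
    · exact Primrec.eq.comp (Primrec.nat_mod.comp Primrec.id (Primrec.const 2)) (Primrec.const 0)
    · exact Primrec.nat_div.comp Primrec.id (Primrec.const 2)
  refine (h.comp Primrec.encode).of_eq fun z => ?_
  cases z with
  | ofNat n =>
    show (if (encode (n : ℤ)) % 2 = 0 then (encode (n : ℤ)) / 2 else 0) = n
    rw [encode_int_ofNat, if_pos (by omega)]; omega
  | negSucc n =>
    show (if (encode (Int.negSucc n)) % 2 = 0 then (encode (Int.negSucc n)) / 2 else 0) = 0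
    rw [encode_int_negSucc, if_neg (by omega)]

theorem prim_toNat_neg : Primrec (fun z : ℤ => (-z).toNat) := by
  have h : Primrec (fun n : ℕ => if n % 2 = 0 then 0 else n / 2 + 1) := by
    refine Primrec.ite ?_ (Primrec.const 0) ?_
    · exact Primrec.eq.comp (Primrec.nat_mod.comp Primrec.id (Primrec.const 2)) (Primrec.const 0)
    · exact Primrec.succ.comp (Primrec.nat_div.comp Primrec.id (Primrec.const 2))
  refine (h.comp Primrec.encode).of_eq fun z => ?_
  cases z with
  | ofNat n =>
    show (if (encode (n : ℤ)) % 2 = 0 then 0 else (encode (n : ℤ)) / 2 + 1) = (-(n:ℤ)).toNat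
    rw [encode_int_ofNat, if_pos (by omega)]; omega
  | negSucc n =>
    show (if (encode (Int.negSucc n)) % 2 = 0 then 0 else (encode (Int.negSucc n)) / 2 + 1) =
      (-(Int.negSucc n)).toNat
    rw [encode_int_negSucc, if_neg (by omega)]
    rw [Int.neg_negSucc]
    simp
    omega

theorem prim_natSub : Primrec₂ (fun p q : ℕ => (p : ℤ) - (q : ℤ)) := by
  have h : Primrec₂ (fun p q : ℕ => if q ≤ p then 2 * (p - q) else 2 * (q - p) - 1) := by
    refine Primrec.ite ?_ ?_ ?_
    · exact Primrec.nat_le.comp Primrec.snd Primrec.fst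
    · exact Primrec.nat_mul.comp (Primrec.const 2) (Primrec.nat_sub.comp Primrec.fst Primrec.snd)
    · exact Primrec.nat_sub.comp (Primrec.nat_mul.comp (Primrec.const 2)
        (Primrec.nat_sub.comp Primrec.snd Primrec.fst)) (Primrec.const 1)
  refine Primrec.encode_iff.1 (Primrec.of_eq (α := ℕ × ℕ) h fun a => ?_)
  obtain ⟨p, q⟩ := a
  show (if q ≤ p then 2 * (p - q) else 2 * (q - p) - 1) = encode ((p : ℤ) - (q : ℤ))
  split_ifs with hq
  · have : (p : ℤ) - q = ((p - q : ℕ) : ℤ) := by omega
    rw [this, encode_int_ofNat]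
  · have : (p : ℤ) - q = Int.negSucc (q - p - 1) := by
      rw [Int.negSucc_eq]; omega
    rw [this, encode_int_negSucc]; omega

theorem prim_int_of_parts (f : ℤ → ℤ → ℤ) (P N : ℕ → ℕ → ℕ → ℕ → ℕ)
    (hP : Primrec (fun a : (ℕ × ℕ) × (ℕ × ℕ) => P a.1.1 a.1.2 a.2.1 a.2.2))
    (hN : Primrec (fun a : (ℕ × ℕ) × (ℕ × ℕ) => N a.1.1 a.1.2 a.2.1 a.2.2))
    (h : ∀ x y, f x y = (P x.toNat (-x).toNat y.toNat (-y).toNat : ℤ) -
      (N x.toNat (-x).toNat y.toNat (-y).toNat : ℤ)) : Primrec₂ f := by
  have hx : Primrec (fun a : ℤ × ℤ => ((a.1.toNat, (-a.1).toNat), (a.2.toNat, (-a.2).toNat))) :=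
    Primrec.pair (Primrec.pair (prim_toNat.comp Primrec.fst) (prim_toNat_neg.comp Primrec.fst))
      (Primrec.pair (prim_toNat.comp Primrec.snd) (prim_toNat_neg.comp Primrec.snd))
  refine (prim_natSub.comp (hP.comp hx) (hN.comp hx)).of_eq fun a => ?_
  exact (h a.1 a.2).symm

theorem prim_int_add : Primrec₂ (fun x y : ℤ => x + y) := by
  refine prim_int_of_parts _ (fun a b c d => a + c) (fun a b c d => b + d) ?_ ?_ ?_
  · exact Primrec.nat_add.comp (Primrec.fst.comp Primrec.fst) (Primrec.fst.comp Primrec.snd)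
  · exact Primrec.nat_add.comp (Primrec.snd.comp Primrec.fst) (Primrec.snd.comp Primrec.snd)
  · intro x y; push_cast; omega

theorem prim_int_mul : Primrec₂ (fun x y : ℤ => x * y) := by
  refine prim_int_of_parts _ (fun a b c d => a * c + b * d) (fun a b c d => a * d + b * c) ?_ ?_ ?_
  · exact Primrec.nat_add.comp
      (Primrec.nat_mul.comp (Primrec.fst.comp Primrec.fst) (Primrec.fst.comp Primrec.snd))
      (Primrec.nat_mul.comp (Primrec.snd.comp Primrec.fst) (Primrec.snd.comp Primrec.snd))
  · exact Primrec.nat_add.comp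
      (Primrec.nat_mul.comp (Primrec.fst.comp Primrec.fst) (Primrec.snd.comp Primrec.snd))
      (Primrec.nat_mul.comp (Primrec.snd.comp Primrec.fst) (Primrec.fst.comp Primrec.snd))
  · intro x y
    push_cast
    have hx : x = (x.toNat : ℤ) - ((-x).toNat : ℤ) := by omega
    have hy : y = (y.toNat : ℤ) - ((-y).toNat : ℤ) := by omega
    generalize (x.toNat : ℤ) = a at *
    generalize ((-x).toNat : ℤ) = b at *
    generalize (y.toNat : ℤ) = c at *
    generalize ((-y).toNat : ℤ) = d at *
    rw [hx, hy]
    ring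

theorem prim_natAbs : Primrec Int.natAbs := by
  refine (Primrec.nat_add.comp prim_toNat prim_toNat_neg).of_eq fun z => ?_
  omega

end IntPrim

/-! ### the algorithm -/

/-- the product of two polynomials given by lists of coefficients -/
def mulL (p t : List ℤ) : List ℤ :=
  (List.range (p.length + t.length)).map fun k =>
    ((List.range (k + 1)).map fun i => p.getD i 0 * t.getD (k - i) 0).sum

/-- the length of a polynomial given by a list of coefficients -/
def lenL (l : List ℤ) : ℕ := (l.map Int.natAbs).sum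

/-- the integers between `-B` and `B` -/
def entries (B : ℕ) : List ℤ := (List.range (2 * B + 1)).map fun i : ℕ => (i : ℤ) - (B : ℤ)

/-- the lists of length `n` with entries in `[-B, B]` -/
def allL (B : ℕ) (n : ℕ) : List (List ℤ) :=
  Nat.rec [[]] (fun _ L => L.flatMap fun l => (entries B).map fun a => a :: l) n

/-- one step of the search -/
def pick (p acc t : List ℤ) : List ℤ :=
  if 0 < lenL (mulL p t) ∧ lenL (mulL p t) < lenL (mulL p acc) then t else acc

/-- the bound for the degrees -/
def bound (p : List ℤ) : ℕ := DD p.length (lenL p) (lenL p) + 1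

/-- the cofactor found by the search -/
def best (p : List ℤ) : List ℤ :=
  (allL ((1 + lenL p) ^ bound p) (bound p)).foldl (pick p) [1]

/-- the algorithm -/
def algo (p : List ℤ) : List ℤ := mulL p (best p)

/-! ### it is primitive recursive -/

theorem prim_sum {α : Type} [Primcodable α] {f : α → List ℤ} (hf : Primrec f) :
    Primrec fun a => (f a).sum := by
  have h := Primrec.list_foldr (f := f) (g := fun _ => (0 : ℤ)) (h := fun _ p => p.1 + p.2) hf
    (Primrec.const 0) (prim_int_add.comp (Primrec.fst.comp Primrec.snd)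
      (Primrec.snd.comp Primrec.snd))
  exact h.of_eq fun q => rfl

theorem prim_sumN {α : Type} [Primcodable α] {f : α → List ℕ} (hf : Primrec f) :
    Primrec fun a => (f a).sum := by
  have h := Primrec.list_foldr (f := f) (g := fun _ => (0 : ℕ)) (h := fun _ p => p.1 + p.2) hf
    (Primrec.const 0) (Primrec.nat_add.comp (Primrec.fst.comp Primrec.snd)
      (Primrec.snd.comp Primrec.snd))
  exact h.of_eq fun q => rfl

theorem prim_lenL : Primrec lenL := by
  apply prim_sumN
  exact Primrec.list_map Primrec.id (prim_natAbs.comp Primrec.snd)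

theorem prim_mulL : Primrec₂ mulL := by
  have hr : Primrec (fun q : List ℤ × List ℤ => List.range (q.1.length + q.2.length)) :=
    Primrec.list_range.comp (Primrec.nat_add.comp (Primrec.list_length.comp Primrec.fst)
      (Primrec.list_length.comp Primrec.snd))
  refine Primrec.list_map hr (g := fun q k =>
    ((List.range (k + 1)).map fun i => q.1.getD i 0 * q.2.getD (k - i) 0).sum) ?_
  apply prim_sum (α := (List ℤ × List ℤ) × ℕ)
    (f := fun x => (List.range (x.2 + 1)).map fun i => x.1.1.getD i 0 * x.1.2.getD (x.2 - i) 0)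
  refine Primrec.list_map (Primrec.list_range.comp (Primrec.succ.comp Primrec.snd))
    (g := fun (x : (List ℤ × List ℤ) × ℕ) (i : ℕ) =>
      x.1.1.getD i 0 * x.1.2.getD (x.2 - i) 0) ?_
  refine prim_int_mul.comp ?_ ?_
  · exact (Primrec.list_getD 0).comp (Primrec.fst.comp (Primrec.fst.comp Primrec.fst)) Primrec.snd
  · exact (Primrec.list_getD 0).comp (Primrec.snd.comp (Primrec.fst.comp Primrec.fst))
      (Primrec.nat_sub.comp (Primrec.snd.comp Primrec.fst) Primrec.snd)

theorem prim_entries : Primrec entries := by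
  refine Primrec.list_map (Primrec.list_range.comp (Primrec.succ.comp
    (Primrec.nat_mul.comp (Primrec.const 2) Primrec.id)))
    (g := fun (B : ℕ) (i : ℕ) => (i : ℤ) - (B : ℤ)) ?_
  exact prim_natSub.comp Primrec.snd Primrec.fst

theorem prim_allL : Primrec₂ allL := by
  refine Primrec.nat_rec (f := fun _ : ℕ => [[]])
    (g := fun (B : ℕ) (q : ℕ × List (List ℤ)) =>
      q.2.flatMap fun l => (entries B).map fun a => a :: l) (Primrec.const _) ?_
  refine Primrec.list_flatMap (Primrec.snd.comp Primrec.snd)
    (g := fun (x : ℕ × ℕ × List (List ℤ)) (l : List ℤ) => (entries x.1).map fun a => a :: l) ?_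
  refine Primrec.list_map (prim_entries.comp (Primrec.fst.comp Primrec.fst))
    (g := fun (y : (ℕ × ℕ × List (List ℤ)) × List ℤ) (a : ℤ) => a :: y.2) ?_
  exact Primrec.list_cons.comp Primrec.snd (Primrec.snd.comp Primrec.fst)

theorem prim_factorial : Primrec Nat.factorial := by
  have h : Primrec (fun n : ℕ => Nat.rec (motive := fun _ => ℕ) 1
      (fun k IH => (k + 1) * IH) n) :=
    Primrec.nat_rec' (f := fun n : ℕ => n) (g := fun _ => 1) (h := fun _ p => (p.1 + 1) * p.2)
      Primrec.id (Primrec.const 1)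
      (Primrec.nat_mul.comp (Primrec.succ.comp (Primrec.fst.comp Primrec.snd))
        (Primrec.snd.comp Primrec.snd))
  refine h.of_eq fun n => ?_
  induction n with
  | zero => rfl
  | succ n ih =>
    show (n + 1) * (Nat.rec (motive := fun _ => ℕ) 1 (fun k IH => (k + 1) * IH) n) = _
    rw [ih, Nat.factorial_succ]

theorem prim_pow : Primrec₂ (fun a n : ℕ => a ^ n) := by
  have h : Primrec₂ (fun a n : ℕ => Nat.rec (motive := fun _ => ℕ) 1 (fun _ IH => IH * a) n) :=
    Primrec.nat_rec (f := fun _ : ℕ => 1) (g := fun (a : ℕ) (p : ℕ × ℕ) => p.2 * a)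
      (Primrec.const 1)
      (Primrec.nat_mul.comp (Primrec.snd.comp Primrec.snd) Primrec.fst)
  refine h.of_eq fun a n => ?_
  induction n with
  | zero => rfl
  | succ n ih =>
    show (Nat.rec (motive := fun _ => ℕ) 1 (fun _ IH => IH * a) n) * a = _
    rw [ih, pow_succ]

theorem prim_Bd : Primrec (fun q : (ℕ × ℕ) × ℕ => Bd q.1.1 q.1.2 q.2) := by
  have h1 : Primrec (fun q : (ℕ × ℕ) × ℕ => q.1.1 + q.2) :=
    Primrec.nat_add.comp (Primrec.fst.comp Primrec.fst) Primrec.snd
  exact Primrec.nat_mul.comp (prim_factorial.comp h1)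
    (prim_pow.comp (Primrec.snd.comp Primrec.fst) h1)

theorem prim_DD : Primrec₂ (fun (q : ℕ × ℕ) (j : ℕ) => DD q.1 q.2 j) := by
  have h : Primrec₂ (fun (q : ℕ × ℕ) (j : ℕ) => Nat.rec (motive := fun _ => ℕ) 0
      (fun _ IH => IH + (q.1 * (Bd q.1 q.2 IH + 1) + 1)) j) := by
    refine Primrec.nat_rec (f := fun _ : ℕ × ℕ => 0)
      (g := fun (q : ℕ × ℕ) (p : ℕ × ℕ) => p.2 + (q.1 * (Bd q.1 q.2 p.2 + 1) + 1))
      (Primrec.const 0) ?_
    refine Primrec.nat_add.comp (Primrec.snd.comp Primrec.snd) (Primrec.succ.comp ?_)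
    refine Primrec.nat_mul.comp (Primrec.fst.comp Primrec.fst) (Primrec.succ.comp ?_)
    exact prim_Bd.comp (Primrec.pair Primrec.fst (Primrec.snd.comp Primrec.snd))
  refine h.of_eq fun q j => ?_
  induction j with
  | zero => rfl
  | succ j ih =>
    rw [DD, ← ih]

theorem prim_bound : Primrec bound := by
  refine Primrec.succ.comp ?_
  exact prim_DD.comp (Primrec.pair Primrec.list_length prim_lenL) prim_lenL

theorem prim_pick : Primrec (fun q : List ℤ × List ℤ × List ℤ => pick q.1 q.2.1 q.2.2) := by
  have h1 : Primrec (fun q : List ℤ × List ℤ × List ℤ => lenL (mulL q.1 q.2.2)) :=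
    prim_lenL.comp (prim_mulL.comp Primrec.fst (Primrec.snd.comp Primrec.snd))
  have h2 : Primrec (fun q : List ℤ × List ℤ × List ℤ => lenL (mulL q.1 q.2.1)) :=
    prim_lenL.comp (prim_mulL.comp Primrec.fst (Primrec.fst.comp Primrec.snd))
  refine Primrec.ite ?_ (Primrec.snd.comp Primrec.snd) (Primrec.fst.comp Primrec.snd)
  exact (Primrec.nat_lt.comp (Primrec.const 0) h1).and (Primrec.nat_lt.comp h1 h2)

theorem prim_best : Primrec best := by
  have h1 : Primrec (fun p : List ℤ => (1 + lenL p) ^ bound p) :=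
    prim_pow.comp (Primrec.nat_add.comp (Primrec.const 1) prim_lenL) prim_bound
  refine Primrec.list_foldl (f := fun p => allL ((1 + lenL p) ^ bound p) (bound p))
    (g := fun _ => [(1 : ℤ)]) (h := fun p q => pick p q.1 q.2) ?_ (Primrec.const _) ?_
  · exact prim_allL.comp h1 prim_bound
  · exact prim_pick

theorem prim_algo : Primrec algo := prim_mulL.comp Primrec.id prim_best

/-! ### correctness -/

/-- the polynomial with a given list of coefficients, the constant coefficient first -/
noncomputable def toPoly (l : List ℤ) : ℤ[X] :=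
  ∑ i ∈ Finset.range l.length, monomial i (l.getD i 0)

theorem coeff_toPoly (l : List ℤ) (i : ℕ) : (toPoly l).coeff i = l.getD i 0 := by
  rw [toPoly, finsetSum_coeff]
  simp only [coeff_monomial]
  rw [Finset.sum_ite_eq' (Finset.range l.length) i]
  simp only [Finset.mem_range]
  split_ifs with h
  · rfl
  · rw [List.getD_eq_default _ _ (by omega)]

theorem toPoly_mulL (p t : List ℤ) : toPoly (mulL p t) = toPoly p * toPoly t := by
  ext k
  rw [coeff_toPoly, coeff_mul, Finset.Nat.sum_antidiagonal_eq_sum_range_succ_mk]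
  simp only [coeff_toPoly]
  by_cases hk : k < p.length + t.length
  · have h1 : (mulL p t).getD k 0 =
        ((List.range (k + 1)).map fun i => p.getD i 0 * t.getD (k - i) 0).sum := by
      rw [mulL, List.getD_eq_getElem _ _ (by simpa using hk), List.getElem_map,
        List.getElem_range]
    rw [h1]
    rfl
  · have h1 : (mulL p t).getD k 0 = 0 := by
      rw [mulL, List.getD_eq_default _ _ (by simpa using hk)]
    rw [h1]
    symm
    apply Finset.sum_eq_zero
    intro i hi
    have hi' := Finset.mem_range.1 hi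
    by_cases h2 : i < p.length
    · rw [List.getD_eq_default t _ (by omega), mul_zero]
    · rw [List.getD_eq_default p _ (by omega), zero_mul]

theorem len_toPoly (l : List ℤ) : len (toPoly l) = lenL l := by
  rw [len_eq_sum (s := Finset.range l.length)]
  · simp only [coeff_toPoly]
    rw [lenL]
    have h1 : ∑ i ∈ Finset.range l.length, (l.getD i 0).natAbs =
        ((List.range l.length).map fun i => (l.getD i 0).natAbs).sum := rfl
    rw [h1]
    congr 1
    apply List.ext_getElem
    · simp
    · intro i h2 h3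
      simp only [List.getElem_map, List.getElem_range]
      rw [List.getD_eq_getElem]
  · intro i hi
    rw [coeff_toPoly, List.getD_eq_default _ _ (by
      have := mt Finset.mem_range.2 hi
      omega)]

theorem mem_entries {B : ℕ} {a : ℤ} (h : a.natAbs ≤ B) : a ∈ entries B := by
  rw [entries, List.mem_map]
  refine ⟨(a + B).toNat, ?_, by omega⟩
  rw [List.mem_range]
  omega

theorem mem_allL {B : ℕ} : ∀ {l : List ℤ}, (∀ a ∈ l, a.natAbs ≤ B) → l ∈ allL B l.length := by
  intro l
  induction l with
  | nil =>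
    intro _
    show [] ∈ [[]]
    simp
  | cons a l ih =>
    intro h
    show a :: l ∈ (allL B l.length).flatMap fun l => (entries B).map fun a => a :: l
    rw [List.mem_flatMap]
    refine ⟨l, ih fun b hb => h b (List.mem_cons_of_mem _ hb), ?_⟩
    rw [List.mem_map]
    exact ⟨a, mem_entries (h a List.mem_cons_self), rfl⟩

theorem foldl_pick (p : List ℤ) : ∀ (L : List (List ℤ)) (acc : List ℤ),
    0 < lenL (mulL p acc) → 0 < lenL (mulL p (L.foldl (pick p) acc)) ∧
      lenL (mulL p (L.foldl (pick p) acc)) ≤ lenL (mulL p acc) ∧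
      ∀ t ∈ L, 0 < lenL (mulL p t) → lenL (mulL p (L.foldl (pick p) acc)) ≤ lenL (mulL p t) := by
  intro L
  induction L with
  | nil =>
    intro acc h
    exact ⟨h, le_rfl, fun t ht => by simp at ht⟩
  | cons s L ih =>
    intro acc h
    rw [List.foldl_cons]
    have h1 : 0 < lenL (mulL p (pick p acc s)) ∧
        lenL (mulL p (pick p acc s)) ≤ lenL (mulL p acc) ∧
        (0 < lenL (mulL p s) → lenL (mulL p (pick p acc s)) ≤ lenL (mulL p s)) := by
      rw [pick]
      split_ifs with hc
      · exact ⟨hc.1, hc.2.le, fun _ => le_rfl⟩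
      · refine ⟨h, le_rfl, fun hs => ?_⟩
        by_contra hlt
        push Not at hlt
        exact hc ⟨hs, hlt⟩
    obtain ⟨h2, h3, h4⟩ := ih (pick p acc s) h1.1
    refine ⟨h2, h3.trans h1.2.1, fun t ht htp => ?_⟩
    rcases List.mem_cons.1 ht with rfl | ht
    · exact h3.trans (h1.2.2 htp)
    · exact h4 t ht htp

theorem algo_spec (p : List ℤ) (hP : Irreducible (toPoly p)) (hd : (toPoly p).natDegree ≠ 0)
    (hlc : ¬ IsUnit (toPoly p).leadingCoeff) :
    toPoly p ∣ toPoly (algo p) ∧ toPoly (algo p) ≠ 0 ∧
      ∀ G : ℤ[X], G ≠ 0 → toPoly p ∣ G → len (toPoly (algo p)) ≤ len G := by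
  have hdeg : (toPoly p).natDegree ≤ p.length := by
    rw [natDegree_le_iff_coeff_eq_zero]
    intro i hi
    rw [coeff_toPoly, List.getD_eq_default _ _ (by omega)]
  obtain ⟨T, hT0, hTd, hTc, hTm⟩ := exists_bounded hP hd hlc (c := p.length) (x := lenL p) hdeg
    (len_toPoly p).le
  set L := allL ((1 + lenL p) ^ bound p) (bound p) with hL
  have hone : toPoly [1] = 1 := by
    simp [toPoly]
  have h0 : 0 < lenL (mulL p [1]) := by
    rw [← len_toPoly, toPoly_mulL, hone, mul_one]
    exact len_pos hP.ne_zero
  obtain ⟨h1, -, h3⟩ := foldl_pick p L [1] h0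
  have h4 : toPoly (algo p) = toPoly p * toPoly (best p) := toPoly_mulL _ _
  refine ⟨⟨_, h4⟩, ?_, ?_⟩
  · intro h5
    have h6 : lenL (algo p) = 0 := by
      rw [← len_toPoly, h5]
      simp [len]
    have h7 : 0 < lenL (algo p) := h1
    omega
  · intro G hG hPG
    refine le_trans ?_ (hTm G hG hPG)
    set t : List ℤ := (List.range (bound p)).map T.coeff with ht
    have htl : t.length = bound p := by simp [ht]
    have htT : toPoly t = T := by
      ext i
      rw [coeff_toPoly]
      by_cases hi : i < bound p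
      · rw [List.getD_eq_getElem _ _ (by omega)]
        simp [ht]
      · rw [List.getD_eq_default _ _ (by omega)]
        symm
        apply coeff_eq_zero_of_natDegree_lt
        have : bound p = DD p.length (lenL p) (lenL p) + 1 := rfl
        omega
    have htL : t ∈ L := by
      have h8 := mem_allL (B := (1 + lenL p) ^ bound p) (l := t) (by
        intro a ha
        rw [ht, List.mem_map] at ha
        obtain ⟨i, -, rfl⟩ := ha
        exact hTc i)
      rwa [htl] at h8
    have h9 : lenL (mulL p t) = len (toPoly p * T) := by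
      rw [← len_toPoly, toPoly_mulL, htT]
    have h10 : 0 < lenL (mulL p t) := by
      rw [h9]
      exact len_pos (mul_ne_zero hP.ne_zero hT0)
    have h11 := h3 t htL h10
    rw [h9] at h11
    rw [len_toPoly]
    exact h11

end Pool.Agent.R326.ML
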