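import Pool.Agent.R326.ML.Gap

/-!
# Degrees of minimum-length multiples
-/

set_option autoImplicit false

namespace Pool.Agent.R326.ML

open Polynomial

/-- the length of an integer polynomial -/
noncomputable def len (F : ℤ[X]) : ℕ := ∑ i ∈ F.support, (F.coeff i).natAbs

lemma sum_le_len (F : ℤ[X]) (s : Finset ℕ) : ∑ i ∈ s, (F.coeff i).natAbs ≤ len F := by
  classical
  have h1 : ∑ i ∈ s, (F.coeff i).natAbs = ∑ i ∈ s.filter (fun i => F.coeff i ≠ 0),
      (F.coeff i).natAbs := by
    rw [Finset.sum_filter]
    apply Finset.sum_congr rfl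
    intro i _
    split_ifs with h
    · rfl
    · push Not at h
      rw [h]; rfl
  rw [h1, len]
  apply Finset.sum_le_sum_of_subset
  intro i hi
  rw [Finset.mem_filter] at hi
  exact mem_support_iff.2 hi.2

lemma coeff_le_len (F : ℤ[X]) (i : ℕ) : (F.coeff i).natAbs ≤ len F := by
  have := sum_le_len F {i}
  rwa [Finset.sum_singleton] at this

lemma abs_coeff_le_len (F : ℤ[X]) (i : ℕ) : |F.coeff i| ≤ len F := by
  rw [Int.abs_eq_natAbs]
  exact_mod_cast coeff_le_len F i

lemma card_support_le_len (F : ℤ[X]) : F.support.card ≤ len F := by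
  rw [len, Finset.card_eq_sum_ones]
  apply Finset.sum_le_sum
  intro i hi
  exact Nat.one_le_iff_ne_zero.2 (Int.natAbs_ne_zero.2 (mem_support_iff.1 hi))

lemma len_eq_sum {F : ℤ[X]} {s : Finset ℕ} (h : ∀ i, i ∉ s → F.coeff i = 0) :
    len F = ∑ i ∈ s, (F.coeff i).natAbs := by
  rw [len]
  apply Finset.sum_subset
  · intro i hi
    by_contra hs
    exact mem_support_iff.1 hi (h i hs)
  · intro i _ hi
    rw [notMem_support_iff.1 hi]; rfl

lemma len_pos {F : ℤ[X]} (h : F ≠ 0) : 0 < len F := by
  obtain ⟨i, hi⟩ := nonempty_support_iff.2 h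
  have h1 := coeff_le_len F i
  have h2 := Int.natAbs_pos.2 (mem_support_iff.1 hi)
  omega

/-- the low part of a polynomial -/
noncomputable def low (F : ℤ[X]) (k : ℕ) : ℤ[X] :=
  ∑ i ∈ Finset.range k, monomial i (F.coeff i)

lemma coeff_low (F : ℤ[X]) (k i : ℕ) : (low F k).coeff i = if i < k then F.coeff i else 0 := by
  rw [low, finsetSum_coeff]
  simp only [coeff_monomial]
  rw [Finset.sum_ite_eq' (Finset.range k) i]
  simp only [Finset.mem_range]

lemma exists_high (F : ℤ[X]) (k : ℕ) : ∃ G : ℤ[X], X ^ k * G + low F k = F ∧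
    ∀ i, G.coeff i = F.coeff (i + k) := by
  have h1 : X ^ k ∣ F - low F k := by
    rw [X_pow_dvd_iff]
    intro i hi
    rw [coeff_sub, coeff_low, if_pos hi, sub_self]
  obtain ⟨G, hG⟩ := h1
  refine ⟨G, by rw [← hG]; ring, fun i => ?_⟩
  have h2 : (X ^ k * G).coeff (i + k) = G.coeff i := coeff_X_pow_mul _ _ _
  rw [← h2, ← hG, coeff_sub, coeff_low, if_neg (by omega), sub_zero]

lemma len_high_low {F G : ℤ[X]} {k : ℕ} (hG : ∀ i, G.coeff i = F.coeff (i + k)) :
    len G + len (low F k) = len F := by
  classical
  set N := F.natDegree + 1 with hN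
  have h1 : len F = ∑ i ∈ Finset.range (k + N), (F.coeff i).natAbs := by
    apply len_eq_sum
    intro i hi
    apply coeff_eq_zero_of_natDegree_lt
    have := mt Finset.mem_range.2 hi
    omega
  have h2 : len G = ∑ i ∈ Finset.range N, (F.coeff (k + i)).natAbs := by
    rw [len_eq_sum (s := Finset.range N)]
    · apply Finset.sum_congr rfl
      intro i _
      rw [hG, add_comm]
    · intro i hi
      rw [hG]
      apply coeff_eq_zero_of_natDegree_lt
      have := mt Finset.mem_range.2 hi
      omega
  have h3 : len (low F k) = ∑ i ∈ Finset.range k, (F.coeff i).natAbs := by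
    rw [len_eq_sum (s := Finset.range k)]
    · apply Finset.sum_congr rfl
      intro i hi
      rw [coeff_low, if_pos (Finset.mem_range.1 hi)]
    · intro i hi
      rw [coeff_low, if_neg (fun h => hi (Finset.mem_range.2 h))]
  rw [h1, h2, h3]
  clear_value N
  rw [Finset.sum_range_add (fun i => (F.coeff i).natAbs) k N, add_comm]

/-- the bound for the resultants -/
def Bd (c x m : ℕ) : ℕ := (c + m).factorial * x ^ (c + m)

/-- the bound for the degrees -/
def DD (c x : ℕ) : ℕ → ℕ
  | 0 => 0
  | j + 1 => DD c x j + (c * (Bd c x (DD c x j) + 1) + 1)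

lemma DD_mono (c x : ℕ) {i j : ℕ} (h : i ≤ j) : DD c x i ≤ DD c x j := by
  induction h with
  | refl => exact le_rfl
  | step _ ih => exact ih.trans (by rw [DD]; omega)

lemma Bd_mono {c c' x x' m m' : ℕ} (hc : c ≤ c') (hx : x ≤ x') (hx1 : 1 ≤ x') (hm : m ≤ m') :
    Bd c x m ≤ Bd c' x' m' := by
  unfold Bd
  apply Nat.mul_le_mul (Nat.factorial_le (by omega))
  calc x ^ (c + m) ≤ x' ^ (c + m) := Nat.pow_le_pow_left hx _
    _ ≤ x' ^ (c' + m') := Nat.pow_le_pow_right hx1 (by omega)

/-- the degree of a minimum-length multiple with nonzero constant coefficient -/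
lemma degree_bound {P : ℤ[X]} (hP : Irreducible P) (hd : P.natDegree ≠ 0)
    (hlc : ¬ IsUnit P.leadingCoeff) {c x : ℕ} (hc : P.natDegree ≤ c) (hPx : len P ≤ x)
    {F : ℤ[X]} (hPF : P ∣ F) (hF0 : F.coeff 0 ≠ 0) (hFx : len F ≤ x)
    (hmin : ∀ G : ℤ[X], G ≠ 0 → P ∣ G → len F ≤ len G) : F.natDegree ≤ DD c x x := by
  classical
  set n := F.natDegree with hn
  have hF : F ≠ 0 := by rintro rfl; simp at hF0
  have hx1 : 1 ≤ x := (len_pos hF).trans_le hFx
  have claim : ∀ j, n ≤ DD c x j ∨
      j + 1 ≤ (F.support.filter fun i => n - DD c x j ≤ i).card := by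
    intro j
    induction j with
    | zero =>
      right
      rw [zero_add, Nat.one_le_iff_ne_zero, Finset.card_ne_zero]
      refine ⟨n, ?_⟩
      rw [Finset.mem_filter]
      exact ⟨natDegree_mem_support_of_nonzero hF, by omega⟩
    | succ j ih =>
      rcases ih with ih | ih
      · left
        exact ih.trans (DD_mono c x (Nat.le_succ j))
      · by_cases hn' : n ≤ DD c x (j + 1)
        · exact Or.inl hn'
        · right
          push Not at hn'
          have hDD : DD c x (j + 1) = DD c x j + (c * (Bd c x (DD c x j) + 1) + 1) := rfl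
          set D := DD c x j with hD
          set g := c * (Bd c x D + 1) + 1 with hg
          -- there is a term in the gap
          have hex : ∃ i ∈ F.support, n - (D + g) ≤ i ∧ i < n - D := by
            by_contra hcon
            push Not at hcon
            set k := n - D with hk
            obtain ⟨G, hG1, hG2⟩ := exists_high F k
            have hGn : G ≠ 0 := by
              intro h0
              have h1 : G.coeff D = 0 := by rw [h0, coeff_zero]
              rw [hG2, show D + k = n by omega] at h1
              exact leadingCoeff_ne_zero.2 hF h1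
            have hGd : G.natDegree ≤ D := by
              rw [natDegree_le_iff_coeff_eq_zero]
              intro i hi
              rw [hG2]
              apply coeff_eq_zero_of_natDegree_lt
              omega
            have hHd : (low F k).natDegree ≤ k - g - 1 := by
              rw [natDegree_le_iff_coeff_eq_zero]
              intro i hi
              rw [coeff_low]
              split_ifs with hik
              · by_contra h0
                have := hcon i (mem_support_iff.2 h0) (by omega)
                omega
              · rfl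
            obtain ⟨T, hT⟩ := hPF
            have hdvd : P ∣ G := by
              have hbd : ((P.natDegree + G.natDegree).factorial : ℤ) *
                  (x : ℤ) ^ (P.natDegree + G.natDegree) ≤ (Bd c x D : ℕ) := by
                have := Bd_mono hc (le_refl x) hx1 hGd
                unfold Bd at this ⊢
                exact_mod_cast this
              refine gap hP hd hlc (x := (x : ℤ)) ?_ ?_ hbd (k := k) (H := low F k) (T := T) ?_ ?_
              · intro i
                exact (abs_coeff_le_len P i).trans (by exact_mod_cast hPx)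
              · intro i
                rw [hG2]
                exact (abs_coeff_le_len F _).trans (by exact_mod_cast hFx)
              · have h1 : P.natDegree * (Bd c x D + 1) ≤ c * (Bd c x D + 1) :=
                  Nat.mul_le_mul_right _ hc
                omega
              · rw [hG1, hT]
            have h1 := hmin G hGn hdvd
            have h2 := len_high_low hG2
            have h3 : 0 < len (low F k) := by
              apply len_pos
              intro h0
              have h4 : (low F k).coeff 0 = 0 := by rw [h0, coeff_zero]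
              rw [coeff_low, if_pos (by omega)] at h4
              exact hF0 h4
            omega
          obtain ⟨i, his, hi1, hi2⟩ := hex
          have hsub : insert i (F.support.filter fun i => n - D ≤ i) ⊆
              F.support.filter fun i => n - DD c x (j + 1) ≤ i := by
            intro a ha
            rw [Finset.mem_insert] at ha
            rw [Finset.mem_filter]
            rcases ha with rfl | ha
            · exact ⟨his, by omega⟩
            · rw [Finset.mem_filter] at ha
              exact ⟨ha.1, by omega⟩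
          have h5 := Finset.card_le_card hsub
          rw [Finset.card_insert_of_notMem (by
            rw [Finset.mem_filter]; omega)] at h5
          omega
  rcases claim (len F) with h | h
  · exact h.trans (DD_mono c x hFx)
  · exfalso
    have h1 := (Finset.card_filter_le F.support fun i => n - DD c x (len F) ≤ i)
    have h2 := card_support_le_len F
    omega

/-- the coefficients of the cofactor -/
lemma cofactor_bound {P T : ℤ[X]} {x : ℕ} (hP0 : P.coeff 0 ≠ 0) (hPx : len P ≤ x)
    (hx : ∀ i, ((P * T).coeff i).natAbs ≤ x) (i : ℕ) : (T.coeff i).natAbs ≤ (1 + x) ^ (i + 1) := by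
  induction i using Nat.strong_induction_on with
  | _ i ih =>
    have h1 : (P * T).coeff i = P.coeff 0 * T.coeff i +
        ∑ a ∈ Finset.range i, P.coeff (a + 1) * T.coeff (i - (a + 1)) := by
      rw [coeff_mul, Finset.Nat.sum_antidiagonal_eq_sum_range_succ_mk, Finset.sum_range_succ']
      simp only [Nat.sub_zero]
      ring
    have h2 : (P.coeff 0 * T.coeff i).natAbs ≤ ((P * T).coeff i).natAbs +
        (∑ a ∈ Finset.range i, P.coeff (a + 1) * T.coeff (i - (a + 1))).natAbs := by
      have : P.coeff 0 * T.coeff i = (P * T).coeff i -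
          ∑ a ∈ Finset.range i, P.coeff (a + 1) * T.coeff (i - (a + 1)) := by rw [h1]; ring
      rw [this]
      exact Int.natAbs_sub_le _ _
    have h3 : (∑ a ∈ Finset.range i, P.coeff (a + 1) * T.coeff (i - (a + 1))).natAbs ≤
        ∑ a ∈ Finset.range i, (P.coeff (a + 1)).natAbs * (1 + x) ^ i := by
      refine (Int.natAbs_sum_le _ _).trans (Finset.sum_le_sum fun a ha => ?_)
      have ha' := Finset.mem_range.1 ha
      rw [Int.natAbs_mul]
      apply Nat.mul_le_mul_left
      refine (ih (i - (a + 1)) (by omega)).trans ?_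
      exact Nat.pow_le_pow_right (by omega) (by omega)
    rw [← Finset.sum_mul] at h3
    have h4 : ∑ a ∈ Finset.range i, (P.coeff (a + 1)).natAbs ≤ x := by
      have := sum_le_len P ((Finset.range i).map ⟨fun a => a + 1, fun a b h => by simpa using h⟩)
      rw [Finset.sum_map] at this
      exact this.trans hPx
    have h5 : (T.coeff i).natAbs ≤ (P.coeff 0 * T.coeff i).natAbs := by
      rw [Int.natAbs_mul]
      exact Nat.le_mul_of_pos_left _ (Int.natAbs_pos.2 hP0)
    have h6 := hx i
    rcases Nat.eq_zero_or_pos i with hi | hi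
    · subst hi
      simp only [Finset.range_zero, Finset.sum_empty, Int.natAbs_zero, add_zero] at h2
      rw [zero_add, pow_one]
      omega
    · have h7 : (∑ a ∈ Finset.range i, (P.coeff (a + 1)).natAbs) * (1 + x) ^ i ≤
          x * (1 + x) ^ i := Nat.mul_le_mul_right _ h4
      have h8 : x ≤ (1 + x) ^ i := by
        calc x ≤ (1 + x) ^ 1 := by rw [pow_one]; omega
          _ ≤ (1 + x) ^ i := Nat.pow_le_pow_right (by omega) hi
      have h9 : (1 + x) ^ (i + 1) = (1 + x) ^ i + x * (1 + x) ^ i := by ring
      omega

/-- a minimum-length multiple with a bounded cofactor -/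
theorem exists_bounded {P : ℤ[X]} (hP : Irreducible P) (hd : P.natDegree ≠ 0)
    (hlc : ¬ IsUnit P.leadingCoeff) {c x : ℕ} (hc : P.natDegree ≤ c) (hPx : len P ≤ x) :
    ∃ T : ℤ[X], T ≠ 0 ∧ T.natDegree ≤ DD c x x ∧
      (∀ i, (T.coeff i).natAbs ≤ (1 + x) ^ (DD c x x + 1)) ∧
      ∀ G : ℤ[X], G ≠ 0 → P ∣ G → len (P * T) ≤ len G := by
  classical
  -- a minimum-length multiple
  have hex : ∃ l, ∃ F : ℤ[X], F ≠ 0 ∧ P ∣ F ∧ len F = l := ⟨_, P, hP.ne_zero, dvd_rfl, rfl⟩
  obtain ⟨F, hF0, hPF, hFl⟩ := Nat.find_spec hex
  have hmin : ∀ G : ℤ[X], G ≠ 0 → P ∣ G → len F ≤ len G := by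
    intro G hG hPG
    rw [hFl]
    exact Nat.find_min' hex ⟨G, hG, hPG, rfl⟩
  -- remove the powers of `X`
  set r := F.natTrailingDegree with hr
  obtain ⟨F', hF', hF'c⟩ := exists_high F r
  have hlow : low F r = 0 := by
    ext i
    rw [coeff_low, coeff_zero]
    split_ifs with h
    · exact coeff_eq_zero_of_lt_natTrailingDegree h
    · rfl
  rw [hlow, add_zero] at hF'
  have hlenF' : len F' = len F := by
    have := len_high_low hF'c
    rw [hlow] at this
    have h0 : len (0 : ℤ[X]) = 0 := by simp [len]
    omega
  have hc0 : F'.coeff 0 ≠ 0 := by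
    rw [hF'c, zero_add]
    exact fun h => hF0 (trailingCoeff_eq_zero.1 h)
  have hPX : ¬ P ∣ X := by
    rintro ⟨Q, hQ⟩
    have h1 := congrArg leadingCoeff hQ
    rw [leadingCoeff_X, leadingCoeff_mul] at h1
    exact hlc (IsUnit.of_mul_eq_one _ h1.symm)
  have hPF' : P ∣ F' := by
    rw [← hF'] at hPF
    rcases hP.prime.dvd_or_dvd hPF with h | h
    · exact absurd (hP.prime.dvd_of_dvd_pow h) hPX
    · exact h
  have hmin' : ∀ G : ℤ[X], G ≠ 0 → P ∣ G → len F' ≤ len G := by
    intro G hG hPG
    rw [hlenF']
    exact hmin G hG hPG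
  have hF'x : len F' ≤ x := (hmin' P hP.ne_zero dvd_rfl).trans hPx
  have hdeg := degree_bound hP hd hlc hc hPx hPF' hc0 hF'x hmin'
  obtain ⟨T, hT⟩ := hPF'
  have hF'0 : F' ≠ 0 := by rintro h; rw [h] at hc0; simp at hc0
  have hT0 : T ≠ 0 := by rintro rfl; rw [mul_zero] at hT; exact hF'0 hT
  have hP0 : P.coeff 0 ≠ 0 := by
    intro h
    apply hc0
    rw [hT, mul_coeff_zero, h, zero_mul]
  have hTd : T.natDegree ≤ DD c x x := by
    rw [hT, natDegree_mul hP.ne_zero hT0] at hdeg
    omega
  refine ⟨T, hT0, hTd, ?_, ?_⟩
  · intro i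
    by_cases hi : i ≤ T.natDegree
    · refine (cofactor_bound hP0 hPx (fun j => ?_) i).trans ?_
      · rw [← hT]
        exact (coeff_le_len F' j).trans hF'x
      · exact Nat.pow_le_pow_right (by omega) (by omega)
    · rw [coeff_eq_zero_of_natDegree_lt (by omega)]
      simp
  · intro G hG hPG
    rw [← hT]
    exact hmin' G hG hPG

end Pool.Agent.R326.ML
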