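import Mathlib

/-!
# Gaps in multiples of a nonmonic polynomial
-/

set_option autoImplicit false

namespace Pool.Agent.R326.ML

open Polynomial

section

variable {p : ℕ} [hp : Fact p.Prime] {P : ℤ[X]}

lemma descent (hP : P.map (Int.castRingHom (ZMod p)) ≠ 0) (hlc : (p : ℤ) ∣ P.leadingCoeff)
    (s : ℕ) : ∀ (k : ℕ) (R : ℤ) (W Q : ℤ[X]), P * W = C R * X ^ k + Q →
      Q.natDegree + s * P.natDegree < k → (p : ℤ) ^ (s + 1) ∣ R := by
  set φ := Int.castRingHom (ZMod p) with hφ
  have hd : (P.map φ).natDegree < P.natDegree := by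
    rcases (natDegree_map_le (f := φ) (p := P)).lt_or_eq with h | h
    · exact h
    · exfalso
      have h1 : (P.map φ).coeff (P.map φ).natDegree ≠ 0 := by
        rw [coeff_natDegree]; exact leadingCoeff_ne_zero.2 hP
      rw [h, coeff_map] at h1
      exact h1 ((ZMod.intCast_zmod_eq_zero_iff_dvd _ p).2 hlc)
  have hP0 : P ≠ 0 := by rintro rfl; simp at hP
  have base : ∀ (k : ℕ) (R : ℤ) (W Q : ℤ[X]), P * W = C R * X ^ k + Q →
      Q.natDegree < k → (p : ℤ) ∣ R := by
    intro k R W Q h hk
    by_contra hR
    have hR0 : (φ R) ≠ 0 := fun h0 => hR ((ZMod.intCast_zmod_eq_zero_iff_dvd _ p).1 h0)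
    have hRz : R ≠ 0 := by rintro rfl; simp at hR0
    have h1 : (P * W).coeff k = R := by
      rw [h, coeff_add, coeff_C_mul, coeff_X_pow, if_pos rfl,
        coeff_eq_zero_of_natDegree_lt hk]; ring
    have hW : W ≠ 0 := by
      rintro rfl
      rw [mul_zero, coeff_zero] at h1
      exact hRz h1.symm
    have h2 : (P * W).natDegree ≤ k := by
      rw [h]
      refine (natDegree_add_le _ _).trans (max_le ?_ hk.le)
      exact natDegree_C_mul_X_pow_le _ _
    rw [natDegree_mul hP0 hW] at h2
    have h3 : (P.map φ * W.map φ).coeff k = φ R := by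
      rw [← Polynomial.map_mul, coeff_map, h1]
    have h4 : k ≤ (P.map φ * W.map φ).natDegree := by
      apply le_natDegree_of_ne_zero
      rw [h3]; exact hR0
    have h5 : (P.map φ * W.map φ).natDegree ≤ (P.map φ).natDegree + W.natDegree :=
      natDegree_mul_le.trans (Nat.add_le_add_left natDegree_map_le _)
    omega
  induction s with
  | zero =>
    intro k R W Q h hk
    rw [zero_add, pow_one]
    exact base k R W Q h (by omega)
  | succ s ih =>
    intro k R W Q h hk
    have hq : Q.natDegree < k := by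
      have := Nat.zero_le ((s + 1) * P.natDegree)
      omega
    obtain ⟨R', rfl⟩ := base k R W Q h hq
    set q := Q.natDegree with hqdef
    -- the coefficients of `W` above `q` are divisible by `p`
    have hWmod : ∀ i, q < i → (p : ℤ) ∣ W.coeff i := by
      intro i hi
      have h1 : P.map φ * W.map φ = Q.map φ := by
        rw [← Polynomial.map_mul, h, Polynomial.map_add, Polynomial.map_mul, map_C]
        have : φ (p * R') = 0 := by simp [hφ]
        rw [this]; simp
      rw [← ZMod.intCast_zmod_eq_zero_iff_dvd]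
      change φ (W.coeff i) = 0
      rw [← coeff_map]
      by_cases hW : W.map φ = 0
      · rw [hW, coeff_zero]
      · apply coeff_eq_zero_of_natDegree_lt
        have h2 := natDegree_mul hP hW
        rw [h1] at h2
        have h3 : (Q.map φ).natDegree ≤ q := natDegree_map_le
        omega
    set Wl : ℤ[X] := ∑ i ∈ Finset.range (q + 1), monomial i (W.coeff i) with hWl
    have hWlc : ∀ i, Wl.coeff i = if i < q + 1 then W.coeff i else 0 := by
      intro i
      rw [hWl, finsetSum_coeff]
      simp only [coeff_monomial]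
      rw [Finset.sum_ite_eq' (Finset.range (q + 1)) i]
      simp only [Finset.mem_range]
    have hWld : Wl.natDegree ≤ q := by
      rw [natDegree_le_iff_coeff_eq_zero]
      intro i hi
      rw [hWlc, if_neg (by omega)]
    have hdvd : C (p : ℤ) ∣ W - Wl := by
      rw [C_dvd_iff_dvd_coeff]
      intro i
      rw [coeff_sub, hWlc]
      split_ifs with hi
      · simp
      · rw [sub_zero]; exact hWmod i (by omega)
    obtain ⟨W', hW'⟩ := hdvd
    have hpz : (C (p : ℤ) : ℤ[X]) ≠ 0 := by
      rw [Ne, C_eq_zero]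
      exact_mod_cast hp.out.ne_zero
    have hQ' : C (p : ℤ) * (P * W' - C R' * X ^ k) = Q - P * Wl := by
      have : W = C (p : ℤ) * W' + Wl := by rw [← hW']; ring
      rw [this, C_mul] at h
      linear_combination h
    have hQd : (P * W' - C R' * X ^ k).natDegree ≤ q + P.natDegree := by
      have h1 : (C (p : ℤ) * (P * W' - C R' * X ^ k)).natDegree =
          (P * W' - C R' * X ^ k).natDegree := natDegree_C_mul (by
            exact_mod_cast hp.out.ne_zero)
      rw [← h1, hQ']
      refine (natDegree_sub_le _ _).trans (max_le (by omega) ?_)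
      exact natDegree_mul_le.trans (by omega)
    have h5 := ih k R' W' (P * W' - C R' * X ^ k) (by ring) (by
      have : (s + 1) * P.natDegree = s * P.natDegree + P.natDegree := by ring
      omega)
    rw [pow_succ' _ (s + 1)]
    exact mul_dvd_mul_left _ h5

end

/-- a bound for the resultant -/
lemma resultant_le {f g : ℤ[X]} {x : ℤ} (hf : ∀ i, |f.coeff i| ≤ x) (hg : ∀ i, |g.coeff i| ≤ x)
    (m n : ℕ) : |resultant f g m n| ≤ ((m + n).factorial : ℤ) * x ^ (m + n) := by
  have hx : 0 ≤ x := (abs_nonneg _).trans (hf 0)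
  have h := Matrix.det_le (A := sylvester f g m n) (abv := AbsoluteValue.abs) (x := x) (by
    intro i j
    rw [AbsoluteValue.abs_apply, sylvester, Matrix.of_apply]
    induction j using Fin.addCases with
    | left j =>
      rw [Fin.addCases_left]
      split_ifs
      · exact hg _
      · simpa using hx
    | right j =>
      rw [Fin.addCases_right]
      split_ifs
      · exact hf _
      · simpa using hx)
  rw [Fintype.card_fin, nsmul_eq_mul] at h
  exact h

/-- the resultant with an irreducible polynomial -/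
lemma dvd_of_resultant_eq_zero {P G : ℤ[X]} (hP : Irreducible P) (hd : P.natDegree ≠ 0)
    (hR : resultant P G = 0) : P ∣ G := by
  have hprim : P.IsPrimitive := hP.isPrimitive hd
  have hQ : Irreducible (P.map (Int.castRingHom ℚ)) :=
    (IsPrimitive.Int.irreducible_iff_irreducible_map_cast hprim).1 hP
  have hinj : Function.Injective (Int.castRingHom ℚ) := Int.cast_injective
  have h1 : resultant (P.map (Int.castRingHom ℚ)) (G.map (Int.castRingHom ℚ)) = 0 := by
    rw [natDegree_map_eq_of_injective hinj, natDegree_map_eq_of_injective hinj,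
      resultant_map_map, hR, map_zero]
  have h2 := (resultant_eq_zero_iff.1 h1).2
  have h3 : P.map (Int.castRingHom ℚ) ∣ G.map (Int.castRingHom ℚ) := by
    by_contra h
    exact h2 (hQ.coprime_iff_not_dvd.2 h)
  obtain ⟨Q, hQ'⟩ := h3
  obtain ⟨b, hbm, hb⟩ := IsLocalization.integerNormalization_spec (nonZeroDivisors ℤ) Q
  have hb0 : (b : ℤ) ≠ 0 := nonZeroDivisors.ne_zero hbm
  have h4 : C (b : ℤ) * G = P * IsLocalization.integerNormalization (nonZeroDivisors ℤ) Q := by
    apply map_injective _ hinj
    rw [Polynomial.map_mul, Polynomial.map_mul, hQ']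
    have h5 : (IsLocalization.integerNormalization (nonZeroDivisors ℤ) Q).map
        (Int.castRingHom ℚ) = C ((b : ℤ) : ℚ) * Q := by
      have : algebraMap ℤ ℚ = Int.castRingHom ℚ := rfl
      rw [← this, hb]
      ext i
      simp [zsmul_eq_mul]
    rw [h5, map_C]
    simp only [eq_intCast]
    ring
  have h6 : P ∣ C (b : ℤ) * G := ⟨_, h4⟩
  rcases hP.prime.dvd_or_dvd h6 with h | h
  · exfalso
    have := natDegree_le_of_dvd h (by rw [Ne, C_eq_zero]; exact hb0)
    rw [natDegree_C] at this
    omega
  · exact h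

/-- the bound for the gaps -/
lemma gap {P : ℤ[X]} (hP : Irreducible P) (hd : P.natDegree ≠ 0) (hlc : ¬ IsUnit P.leadingCoeff)
    {x : ℤ} (hPx : ∀ i, |P.coeff i| ≤ x) {G H T : ℤ[X]} (hGx : ∀ i, |G.coeff i| ≤ x)
    {k B : ℕ} (hB : ((P.natDegree + G.natDegree).factorial : ℤ) *
      x ^ (P.natDegree + G.natDegree) ≤ B)
    (hk : H.natDegree + P.natDegree * (B + 1) ≤ k) (h : X ^ k * G + H = P * T) : P ∣ G := by
  by_contra hPG
  have hR : resultant P G ≠ 0 := fun h => hPG (dvd_of_resultant_eq_zero hP hd h)
  have hne : P.leadingCoeff.natAbs ≠ 1 := fun h => hlc (Int.isUnit_iff_natAbs_eq.2 h)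
  obtain ⟨p, hp, hpl⟩ := Nat.exists_prime_and_dvd hne
  have hfact : Fact p.Prime := ⟨hp⟩
  have hpl' : (p : ℤ) ∣ P.leadingCoeff := Int.natCast_dvd.2 hpl
  have hprim : P.IsPrimitive := hP.isPrimitive hd
  have hmap : P.map (Int.castRingHom (ZMod p)) ≠ 0 := by
    intro h0
    have h1 : C (p : ℤ) ∣ P := by
      rw [C_dvd_iff_dvd_coeff]
      intro i
      rw [← ZMod.intCast_zmod_eq_zero_iff_dvd]
      have : (P.map (Int.castRingHom (ZMod p))).coeff i = 0 := by rw [h0, coeff_zero]
      rwa [coeff_map] at this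
    have h2 := hprim _ h1
    rw [Int.isUnit_iff_natAbs_eq, Int.natAbs_natCast] at h2
    exact hp.one_lt.ne' h2
  obtain ⟨U, V, -, hV, hUV⟩ := exists_mul_add_mul_eq_C_resultant P G le_rfl le_rfl (Or.inl hd)
  have hVd : V.natDegree ≤ P.natDegree - 1 := by
    by_cases hV0 : V = 0
    · rw [hV0]; simp
    · have := (natDegree_lt_iff_degree_lt hV0).2 hV
      omega
  have h1 : P * (T * V + X ^ k * U) = C (resultant P G) * X ^ k + H * V := by
    rw [← hUV]
    linear_combination (-V) * h
  have h2 := descent hmap hpl' B k _ _ _ h1 (by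
    have h3 : (H * V).natDegree ≤ H.natDegree + (P.natDegree - 1) :=
      natDegree_mul_le.trans (Nat.add_le_add_left hVd _)
    have h4 : P.natDegree * (B + 1) = B * P.natDegree + P.natDegree := by ring
    omega)
  have h5 : (p : ℤ) ^ (B + 1) ≤ |resultant P G| := by
    have := Int.le_of_dvd (abs_pos.2 hR) ((dvd_abs _ _).2 h2)
    exact this
  have h6 := (resultant_le hPx hGx P.natDegree G.natDegree).trans hB
  have h7 : (B : ℤ) < (p : ℤ) ^ (B + 1) := by
    have h8 : B + 1 < p ^ (B + 1) := Nat.lt_pow_self hp.one_lt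
    have h9 : B < p ^ (B + 1) := by omega
    exact_mod_cast h9
  linarith

end Pool.Agent.R326.ML
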